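import Pool.Agent.Helper76.TH3.StC3

/-!
# Project TH3, module UBH3: the upper bound UB for new symbols of level 2 * 3^n
-/

set_option autoImplicit false

namespace Pool.Agent.Helper8.TH3

open Pool.Agent.Helper14.CV (Homog EqC act StFar)
open Pool.Agent.Helper76.TH3 Pool.Agent.Helper93.TLH

/-- The function `edgeH` of the transported potential as a linear map. -/
private noncomputable def Ls (μ k m : ℕ) (u1 u2 v1 v2 : ℤ) :
    (ℤ → ℤ → ℂ) →ₗ[ℂ] (Pt m → ℂ) where
  toFun G := fun p : Pt m => edgeH μ u1 u2 v1 v2 (act 1 0 0 (3 ^ k) G) p.1 p.2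
  map_add' G H := by
    funext p
    simp only [edgeH, act, Pi.add_apply]
    ring
  map_smul' c G := by
    funext p
    simp only [edgeH, act, Pi.smul_apply, smul_eq_mul, RingHom.id_apply]
    ring

/-- Two functions, odd exponent. -/
private noncomputable def LO (k : ℕ) : (ℤ → ℤ → ℂ) →ₗ[ℂ] ((Pt k → ℂ) × (Pt k → ℂ)) :=
  (Ls 0 k k 1 0 0 1).prod (Ls 0 k k 1 0 1 2)

/-- Two functions, even exponent. -/
private noncomputable def LE (k m : ℕ) : (ℤ → ℤ → ℂ) →ₗ[ℂ] ((Pt m → ℂ) × (Pt m → ℂ)) :=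
  (Ls 1 k m 1 0 0 1).prod (Ls 1 k m 1 0 1 1)

private theorem build (n D : ℕ) {W : Type} [AddCommGroup W] [Module ℂ W] [Module.Finite ℂ W]
    (hW : Module.finrank ℂ W ≤ D) (L : NSH 3 n →ₗ[ℂ] W)
    (hinj : ∀ G : NSH 3 n, L G = 0 → EqC (G : ℤ → ℤ → ℂ) 0) :
    ∃ Θ : NSH 3 n →ₗ[ℂ] (Fin D → ℂ), ∀ G : NSH 3 n, Θ G = 0 → EqC (G : ℤ → ℤ → ℂ) 0 := by
  have h0 : Module.finrank ℂ W ≤ Module.finrank ℂ (Fin D → ℂ) := by simpa using hW
  obtain ⟨e, he⟩ := finrank_le_iff_exists_linearMap.1 h0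
  refine ⟨e.comp L, fun G hG => hinj G ?_⟩
  apply he
  rw [map_zero]
  exact hG

/-- Module UBH3. -/
theorem hUBH3 : StHUB3 := by
  intro hBal hE1a hE1b hO1 hDimE hDimO n hn
  rcases Nat.even_or_odd' n with ⟨k, hk | hk⟩
  · -- even exponent
    subst hk
    have hk2 : 2 ≤ k := by omega
    have key : ∀ G ∈ NSH 3 (2 * k), LE k (k - 1) G ∈ subEH (k - 1) ∧
        (LE k (k - 1) G = 0 → EqC G 0) := by
      intro G hG
      have hN : NewSymH 3 (2 * k) G := hG
      have hB := (hBal k G (by omega)).1 hN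
      have a1 := hE1a k _ hk2 hB
      have a2 := hE1b k _ hk2 hB
      refine ⟨a1, fun h0 => ?_⟩
      have h1 := congrArg (fun z => z.1) h0
      have h2 := congrArg (fun z => z.2) h0
      have h8 := a2 (fun x y => ⟨congrFun h1 (x, y), congrFun h2 (x, y)⟩)
      exact (hBal k G (by omega)).2.2 hN.1.1 h8
    have hd : ddH3 (2 * k) = 3 * 9 ^ (k - 2) := by
      have h2k : 2 * k / 2 = k := by omega
      unfold ddH3
      rw [if_neg (by omega), h2k]
    rw [hd]
    let L1 : NSH 3 (2 * k) →ₗ[ℂ] subEH (k - 1) :=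
      ((LE k (k - 1)).comp (NSH 3 (2 * k)).subtype).codRestrict (subEH (k - 1))
        (fun G => (key G G.2).1)
    refine build (2 * k) _ ?_ L1 (fun G hG => ?_)
    · rw [hDimE (k - 1) (by omega)]
      have e : k - 1 - 1 = k - 2 := by omega
      rw [e]
    · exact (key G G.2).2 (congrArg Subtype.val hG)
  · -- odd exponent
    subst hk
    have hk1 : 1 ≤ k := by omega
    have key : ∀ G ∈ NSH 3 (2 * k + 1), LO k G ∈ subOH k ∧ (LO k G = 0 → EqC G 0) := by
      intro G hG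
      have hN : NewSymH 3 (2 * k + 1) G := hG
      have hB := (hBal k G hk1).2.1 hN
      obtain ⟨a1, a2⟩ := hO1 k _ hk1 hB
      refine ⟨a1, fun h0 => ?_⟩
      have h1 := congrArg (fun z => z.1) h0
      have h2 := congrArg (fun z => z.2) h0
      have h4 := a2 (fun x y => ⟨congrFun h1 (x, y), congrFun h2 (x, y)⟩)
      exact (hBal k G hk1).2.2 hN.1.1 h4
    have hd : ddH3 (2 * k + 1) = 9 ^ (k - 1) + 3 ^ (k - 1) := by
      have h2k : (2 * k + 1) / 2 = k := by omega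
      unfold ddH3
      rw [if_pos (by omega), h2k]
    rw [hd]
    let L1 : NSH 3 (2 * k + 1) →ₗ[ℂ] subOH k :=
      ((LO k).comp (NSH 3 (2 * k + 1)).subtype).codRestrict (subOH k)
        (fun G => (key G G.2).1)
    refine build (2 * k + 1) _ ?_ L1 (fun G hG => ?_)
    · rw [hDimO k hk1]
    · exact (key G G.2).2 (congrArg Subtype.val hG)

end Pool.Agent.Helper8.TH3
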