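import Pool.Agent.Helper93.TH3.StD

/-!
# Project TH (levels `2·3^n`), module HKB: Hecke sums in balanced levels

Model: `Pool/Agent/Helper8/TH/M_HkB.lean`.
-/

set_option autoImplicit false

namespace Pool.Agent.Helper8.TH3

open Pool.Agent.Helper93.TH3
open Pool.Agent.Helper93.TLH
open Pool.Agent.Helper14.CV (Homog EqC act Tl ne_zero_of_det)

variable {R : Type} [AddCommGroup R]

private theorem SymH_congr {r s : ℕ} {G H : ℤ → ℤ → R} (h : EqC G H) (hH : SymH 3 r s H) :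
    SymH 3 r s G := by
  refine ⟨?_, ?_⟩
  · obtain ⟨c, hc⟩ := h
    intro k p q hk hpq
    have h2 : k * p ≠ 0 ∨ k * q ≠ 0 := by
      rcases hpq with hp | hq
      · exact Or.inl (mul_ne_zero hk hp)
      · exact Or.inr (mul_ne_zero hk hq)
    rw [hc _ _ h2, hc _ _ hpq, hH.1 k p q hk hpq]
  · intro a b c d hd hb hc
    exact ((h.act hd.det_ne).trans (hH.2 a b c d hd hb hc)).trans h.symm

private theorem odd3 (r : ℕ) : (3 : ℤ) ^ r % 2 = 1 := by
  induction r with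
  | zero => norm_num
  | succ r ih => rw [pow_succ]; omega

private theorem even3 (r : ℕ) (x : ℤ) : (2 : ℤ) ∣ x - 3 ^ r * x := by
  have h : (2 : ℤ) ∣ 1 - 3 ^ r := by
    have := odd3 r
    omega
  have e : x - 3 ^ r * x = (1 - 3 ^ r) * x := by ring
  rw [e]
  exact Dvd.dvd.mul_right h x

private theorem ty1 {r : ℕ} {a b c c' d : ℤ} (h : HTy a b c d) (hc : c = 3 ^ r * c') :
    HTy a (3 ^ r * b) c' d := by
  have e : a * d - 3 ^ r * b * c' = a * d - b * c := by rw [hc]; ring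
  have h2 : (2 : ℤ) ∣ c → (2 : ℤ) ∣ c' := by
    intro h3
    have h4 := even3 r c'
    rw [hc] at h3
    omega
  rcases h with h | h
  · left; exact ⟨e.trans h.1, h2 h.2⟩
  · right; exact ⟨e.trans h.1, h.2.1, h2 h.2.2.1, h.2.2.2⟩

private theorem ty2 {r : ℕ} {a b b' c d : ℤ} (h : HTy a b c d) (hb : b = 3 ^ r * b') :
    HTy a b' (3 ^ r * c) d := by
  have e : a * d - b' * (3 ^ r * c) = a * d - b * c := by rw [hb]; ring
  rcases h with h | h
  · left; exact ⟨e.trans h.1, Dvd.dvd.mul_left h.2 _⟩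
  · right; exact ⟨e.trans h.1, h.2.1, Dvd.dvd.mul_left h.2.2.1 _, h.2.2.2⟩

/-- From the balanced level to level `(0, r + s)`. -/
private theorem toZero {r s : ℕ} {G : ℤ → ℤ → R} (h : SymH 3 r s G) :
    SymH 3 0 (r + s) (act (3 ^ r) 0 0 1 G) := by
  have hr : (3 : ℤ) ^ r ≠ 0 := pow_ne_zero _ (by norm_num)
  refine SymH.act h (by simp) ?_
  intro a b c d hd _ hc
  simp only [Nat.cast_ofNat] at hc ⊢
  obtain ⟨e, he⟩ := hc
  have he' : c = 3 ^ r * (3 ^ s * e) := by rw [he, pow_add]; ring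
  refine ⟨a, 3 ^ r * b, 3 ^ s * e, d, ty1 hd he', Dvd.intro _ rfl, Dvd.intro _ rfl, by ring,
    by ring, ?_, by ring⟩
  rw [he']
  ring

/-- Back. -/
private theorem ofZero {r s : ℕ} {H : ℤ → ℤ → R} (h : SymH 3 0 (r + s) H) :
    SymH 3 r s (act 1 0 0 (3 ^ r) H) := by
  have hr : (3 : ℤ) ^ r ≠ 0 := pow_ne_zero _ (by norm_num)
  refine SymH.act h (by simp) ?_
  intro a b c d hd hb hc
  simp only [Nat.cast_ofNat] at hb hc ⊢
  obtain ⟨e, he⟩ := hb
  obtain ⟨f, hf⟩ := hc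
  refine ⟨a, e, 3 ^ r * c, d, ty2 hd he, ?_, ?_, by ring, ?_, by ring, by ring⟩
  · simp
  · rw [hf, pow_add]
    exact ⟨f, by ring⟩
  · rw [he]
    ring

private theorem ne1 {l : ℕ} (hl : l ≠ 0) {p q : ℤ} (hpq : p ≠ 0 ∨ q ≠ 0) :
    (l : ℤ) * p ≠ 0 ∨ q ≠ 0 := by
  rcases hpq with hp | hq
  · exact Or.inl (mul_ne_zero (by exact_mod_cast hl) hp)
  · exact Or.inr hq

private theorem ne2 {l : ℕ} (hl : l ≠ 0) (m : ℤ) {p q : ℤ} (hpq : p ≠ 0 ∨ q ≠ 0) :
    p + m * q ≠ 0 ∨ (l : ℤ) * q ≠ 0 := by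
  by_cases hq : q = 0
  · subst hq
    left
    rcases hpq with hp | hq
    · simpa using hp
    · exact absurd rfl hq
  · exact Or.inr (mul_ne_zero (by exact_mod_cast hl) hq)

/-- The comparison of the two Hecke operators. -/
private theorem Tl_eq {r : ℕ} {l : ℕ} (hl : l ≠ 0) {G : ℤ → ℤ → R} (hG : Homog G) {p q : ℤ}
    (hpq : p ≠ 0 ∨ q ≠ 0) :
    Tl l 1 (act (3 ^ r) 0 0 1 G) p (3 ^ r * q) = Tl l (3 ^ r) G p q := by
  have hr : (3 : ℤ) ^ r ≠ 0 := pow_ne_zero _ (by norm_num)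
  unfold Tl act
  congr 1
  · rw [← hG (3 ^ r) ((l : ℤ) * p) q hr (ne1 hl hpq)]
    congr 1 <;> ring
  · refine Finset.sum_congr rfl fun j _ => ?_
    rw [← hG (3 ^ r) (p + 3 ^ r * (j : ℤ) * q) ((l : ℤ) * q) hr (ne2 hl _ hpq)]
    congr 1 <;> ring

/-- MODULE HKB. -/
theorem hHkB (h : SHHk) (hs : SHHkS) : THkB := by
  intro R _ r s l G hl hl3 hl2 hG
  have hl0 : l ≠ 0 := hl.ne_zero
  have hr : (3 : ℤ) ^ r ≠ 0 := pow_ne_zero _ (by norm_num)
  have hG0 := toZero hG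
  have hne : ∀ {p q : ℤ}, (p ≠ 0 ∨ q ≠ 0) → (p ≠ 0 ∨ (3 : ℤ) ^ r * q ≠ 0) := by
    intro p q hpq
    rcases hpq with hp | hq
    · exact Or.inl hp
    · exact Or.inr (mul_ne_zero hr hq)
  refine ⟨?_, ?_⟩
  · refine SymH_congr (H := act 1 0 0 (3 ^ r) (Tl l 1 (act (3 ^ r) 0 0 1 G))) ?_
      (ofZero (hs 3 (by norm_num) (by norm_num) R _ (r + s) _ hG0 l hl hl3 hl2))
    refine EqC.of_eq fun p q hpq => ?_
    rw [← Tl_eq hl0 hG.1 hpq]
    unfold act
    congr 1 <;> ring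
  · intro δ hdet h01 h10 hdis
    choose b hb using h01
    choose c hc using h10
    set δ' : Fin (l + 1) → Matrix (Fin 2) (Fin 2) ℤ := fun P =>
      !![δ P 0 0, b P; 3 ^ r * δ P 1 0, δ P 1 1] with hδ'
    have hdet' : ∀ P, (δ' P).det = l := by
      intro P
      rw [hδ', Matrix.det_fin_two_of, ← hdet P, Matrix.det_fin_two, hb P]
      ring
    have h10' : ∀ P, 2 * ((3 : ℕ) : ℤ) ^ (r + s) ∣ δ' P 1 0 := by
      intro P
      refine ⟨c P, ?_⟩
      have : δ' P 1 0 = 3 ^ r * δ P 1 0 := by rw [hδ']; rfl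
      rw [this, hc P, pow_add]
      push_cast
      ring
    have hcop : IsCoprime (l : ℤ) ((3 : ℤ) ^ r) := by
      have h1 : Nat.Coprime l 3 := (Nat.coprime_primes hl (by norm_num : Nat.Prime 3)).2 hl3
      have h2 : IsCoprime (l : ℤ) ((3 : ℕ) : ℤ) := Nat.isCoprime_iff_coprime.2 h1
      exact IsCoprime.pow_right (by exact_mod_cast h2)
    have hdis' : ∀ P P', P ≠ P' → ¬ ∀ i j, (l : ℤ) ∣ (δ' P * (δ' P').adjugate) i j := by
      intro P P' hP hall
      apply hdis P P' hP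
      have e1 : δ' P * (δ' P').adjugate =
          !![δ P 0 0 * δ P' 1 1 - b P * (3 ^ r * δ P' 1 0), b P * δ P' 0 0 - δ P 0 0 * b P';
            3 ^ r * δ P 1 0 * δ P' 1 1 - δ P 1 1 * (3 ^ r * δ P' 1 0),
            δ P 1 1 * δ P' 0 0 - 3 ^ r * δ P 1 0 * b P'] := by
        rw [hδ', Matrix.adjugate_fin_two_of, Matrix.mul_fin_two]
        congr 1
        simp only [Matrix.vecCons_inj, and_true]
        refine ⟨⟨?_, ?_⟩, ?_, ?_⟩ <;> ring
      have e2 : δ P * (δ P').adjugate =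
          !![δ P 0 0 * δ P' 1 1 - δ P 0 1 * δ P' 1 0, δ P 0 1 * δ P' 0 0 - δ P 0 0 * δ P' 0 1;
            δ P 1 0 * δ P' 1 1 - δ P 1 1 * δ P' 1 0,
            δ P 1 1 * δ P' 0 0 - δ P 1 0 * δ P' 0 1] := by
        rw [Matrix.adjugate_fin_two]
        conv_lhs => rw [Matrix.eta_fin_two (δ P)]
        rw [Matrix.mul_fin_two]
        congr 1
        simp only [Matrix.vecCons_inj, and_true]
        refine ⟨⟨?_, ?_⟩, ?_, ?_⟩ <;> ring
      rw [e1] at hall
      rw [e2]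
      have h00 := hall 0 0
      have h01 := hall 0 1
      have h10 := hall 1 0
      have h11 := hall 1 1
      simp only [Matrix.of_apply, Matrix.cons_val', Matrix.cons_val_zero, Matrix.cons_val_one,
        Matrix.cons_val_fin_one] at h00 h01 h10 h11
      intro i j
      fin_cases i <;> fin_cases j <;>
        simp only [Matrix.of_apply, Matrix.cons_val', Matrix.cons_val_zero, Matrix.cons_val_one,
          Matrix.cons_val_fin_one, Fin.zero_eta, Fin.mk_one, Fin.isValue]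
      · rw [hb P]
        have : δ P 0 0 * δ P' 1 1 - 3 ^ r * b P * δ P' 1 0 =
          δ P 0 0 * δ P' 1 1 - b P * (3 ^ r * δ P' 1 0) := by ring
        rw [this]
        exact h00
      · rw [hb P, hb P']
        have : 3 ^ r * b P * δ P' 0 0 - δ P 0 0 * (3 ^ r * b P') =
          3 ^ r * (b P * δ P' 0 0 - δ P 0 0 * b P') := by ring
        rw [this]
        exact Dvd.dvd.mul_left h01 _
      · have : 3 ^ r * δ P 1 0 * δ P' 1 1 - δ P 1 1 * (3 ^ r * δ P' 1 0) =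
          3 ^ r * (δ P 1 0 * δ P' 1 1 - δ P 1 1 * δ P' 1 0) := by ring
        rw [this] at h10
        exact hcop.dvd_of_dvd_mul_left h10
      · rw [hb P']
        have : δ P 1 1 * δ P' 0 0 - δ P 1 0 * (3 ^ r * b P') =
          δ P 1 1 * δ P' 0 0 - 3 ^ r * δ P 1 0 * b P' := by ring
        rw [this]
        exact h11
    obtain ⟨k, hk⟩ := h 3 (by norm_num) (by norm_num) R _ (r + s) l _ hl hl3 hl2 hG0 δ' hdet'
      h10' hdis'
    refine ⟨k, fun p q hpq => ?_⟩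
    have h1 := hk p (3 ^ r * q) (hne hpq)
    rw [Tl_eq hl0 hG.1 hpq] at h1
    rw [← h1]
    refine Finset.sum_congr rfl fun P _ => ?_
    have hdne : δ P 0 0 * δ P 1 1 - δ P 0 1 * δ P 1 0 ≠ 0 := by
      rw [← Matrix.det_fin_two, hdet P]
      exact_mod_cast hl0
    rw [← hG.1 (3 ^ r) _ _ hr (ne_zero_of_det hdne hpq)]
    have a00 : δ' P 0 0 = δ P 0 0 := by rw [hδ']; rfl
    have a01 : δ' P 0 1 = b P := by rw [hδ']; rfl
    have a10 : δ' P 1 0 = 3 ^ r * δ P 1 0 := by rw [hδ']; rfl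
    have a11 : δ' P 1 1 = δ P 1 1 := by rw [hδ']; rfl
    unfold act
    rw [a00, a01, a10, a11, hb P]
    congr 1 <;> ring

end Pool.Agent.Helper8.TH3
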